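import Mathlib

namespace Pool.Agent.Lib.MP_2fc053_co

def Rep {V : Type} (G : SimpleGraph V) : Prop :=
  ∃ (l v r : V → ℝ) (c : ℝ),
    (∀ a, l a < v a ∧ v a < r a ∧ r a - l a = c) ∧
    Function.Injective (fun a => (l a, v a, r a)) ∧
    ∀ a b, a ≠ b → (G.Adj a b ↔
      (v a < l b ∧ l b < r a ∧ r a < v b) ∨ (v b < l a ∧ l a < r b ∧ r b < v a))

def L : Fin 16 → ℕ := ![0, 4, 8, 12, 16, 20, 24, 28, 4, 8, 12, 16, 20, 24, 28, 32]
def M : Fin 16 → ℕ := ![3, 7, 11, 15, 19, 23, 27, 31, 19, 23, 27, 31, 35, 39, 43, 47]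

def arc (a b : Fin 16) : Prop := M a < L b ∧ L b < L a + 18 ∧ L a + 18 < M b

instance : DecidableRel arc := fun a b => by unfold arc; infer_instance

def G0 : SimpleGraph (Fin 16) := SimpleGraph.fromRel arc

instance : DecidableRel G0.Adj := fun a b => by
  unfold G0; rw [SimpleGraph.fromRel_adj]; infer_instance

set_option synthInstance.maxSize 4096 in
theorem search : ∀ c0 : Fin 3, ∀ c4 : Fin 3, c0 ≠ c4 → ∀ c10 : Fin 3, c0 ≠ c10 →
    ∀ c14 : Fin 3, c4 ≠ c14 → c10 ≠ c14 → ∀ c1 : Fin 3, c10 ≠ c1 → ∀ c5 : Fin 3, c14 ≠ c5 →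
    c1 ≠ c5 → ∀ c11 : Fin 3, c0 ≠ c11 → c1 ≠ c11 → ∀ c15 : Fin 3, c4 ≠ c15 → c5 ≠ c15 →
    c11 ≠ c15 → ∀ c2 : Fin 3, c10 ≠ c2 → c11 ≠ c2 → ∀ c12 : Fin 3, c4 ≠ c12 → c1 ≠ c12 →
    c2 ≠ c12 → ∀ c3 : Fin 3, c14 ≠ c3 → c11 ≠ c3 → c12 ≠ c3 → ∀ c13 : Fin 3, c4 ≠ c13 →
    c5 ≠ c13 → c2 ≠ c13 → c3 ≠ c13 → ∀ c6 : Fin 3, c14 ≠ c6 → c15 ≠ c6 → c2 ≠ c6 →
    ∀ c9 : Fin 3, c0 ≠ c9 → c1 ≠ c9 → c13 ≠ c9 → c6 ≠ c9 → ∀ c7 : Fin 3, c10 ≠ c7 →
    c15 ≠ c7 → c3 ≠ c7 → ∀ c8 : Fin 3, c0 ≠ c8 → c5 ≠ c8 → c12 ≠ c8 → False := by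
  decide +kernel

theorem not_col3 : ¬ G0.Colorable 3 := by
  rintro ⟨f⟩
  have h : ∀ a b : Fin 16, a ≠ b ∧ (arc a b ∨ arc b a) → f a ≠ f b := fun a b hab =>
    f.valid ((SimpleGraph.fromRel_adj arc a b).2 hab)
  exact search (f 0) (f 4) (h 0 4 (by decide)) (f 10) (h 0 10 (by decide)) (f 14)
    (h 4 14 (by decide)) (h 10 14 (by decide)) (f 1) (h 10 1 (by decide)) (f 5)
    (h 14 5 (by decide)) (h 1 5 (by decide)) (f 11) (h 0 11 (by decide)) (h 1 11 (by decide))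
    (f 15) (h 4 15 (by decide)) (h 5 15 (by decide)) (h 11 15 (by decide)) (f 2)
    (h 10 2 (by decide)) (h 11 2 (by decide)) (f 12) (h 4 12 (by decide)) (h 1 12 (by decide))
    (h 2 12 (by decide)) (f 3) (h 14 3 (by decide)) (h 11 3 (by decide)) (h 12 3 (by decide))
    (f 13) (h 4 13 (by decide)) (h 5 13 (by decide)) (h 2 13 (by decide)) (h 3 13 (by decide))
    (f 6) (h 14 6 (by decide)) (h 15 6 (by decide)) (h 2 6 (by decide)) (f 9)
    (h 0 9 (by decide)) (h 1 9 (by decide)) (h 13 9 (by decide)) (h 6 9 (by decide)) (f 7)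
    (h 10 7 (by decide)) (h 15 7 (by decide)) (h 3 7 (by decide)) (f 8) (h 0 8 (by decide))
    (h 5 8 (by decide)) (h 12 8 (by decide))

theorem unit0 : Rep G0 := by
  refine ⟨fun a => L a, fun a => M a, fun a => (L a + 18 : ℕ), 18, ?_, ?_, ?_⟩
  · intro a
    have h : ∀ a : Fin 16, L a < M a ∧ M a < L a + 18 := by decide
    refine ⟨Nat.cast_lt.2 (h a).1, Nat.cast_lt.2 (h a).2, by push_cast; ring⟩
  · intro a b hab
    have h : ∀ a b : Fin 16, L a = L b → M a = M b → a = b := by decide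
    simp only [Prod.mk.injEq, Nat.cast_inj] at hab
    exact h a b hab.1 hab.2.1
  · intro a b hab
    simp only [G0, SimpleGraph.fromRel_adj, arc, Nat.cast_lt]
    exact ⟨fun h => h.2, fun h => ⟨hab, h⟩⟩

theorem col4 {V : Type} (G : SimpleGraph V) (hG : Rep G) : G.Colorable 4 := by
  classical
  obtain ⟨l, v, r, c, h1, -, h3⟩ := hG
  let k : V → ℤ := fun a => ⌊l a / c⌋
  let col : V → Bool × Bool := fun a =>
    (decide (Even (k a)), decide (v a < c * ((k a : ℝ) + 1)))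
  have key : ∀ a b, v a < l b → l b < r a → r a < v b → col a ≠ col b := by
    intro a b p1 p2 p3 e
    obtain ⟨a1, a2, a3⟩ := h1 a
    have hc : 0 < c := by linarith
    have ka1 : (k a : ℝ) * c ≤ l a := (le_div_iff₀ hc).1 (Int.floor_le _)
    have ka2 : l a < ((k a : ℝ) + 1) * c := (div_lt_iff₀ hc).1 (Int.lt_floor_add_one _)
    have kb1 : (k b : ℝ) * c ≤ l b := (le_div_iff₀ hc).1 (Int.floor_le _)
    have kb2 : l b < ((k b : ℝ) + 1) * c := (div_lt_iff₀ hc).1 (Int.lt_floor_add_one _)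
    have q1 : (k a : ℝ) < k b + 1 := by
      by_contra hn
      push Not at hn
      nlinarith
    have q2 : (k b : ℝ) < k a + 2 := by
      by_contra hn
      push Not at hn
      nlinarith
    have q1' : k a < k b + 1 := by exact_mod_cast q1
    have q2' : k b < k a + 2 := by exact_mod_cast q2
    simp only [col, Prod.mk.injEq, decide_eq_decide] at e
    have hk : k b = k a := by
      have := e.1
      simp only [Int.even_iff] at this
      omega
    rw [hk] at kb2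
    have e2 := e.2
    rw [hk] at e2
    have : v b < c * ((k a : ℝ) + 1) := e2.1 (by nlinarith)
    nlinarith
  have C : G.Coloring (Bool × Bool) := SimpleGraph.Coloring.mk col (by
    intro a b hab
    rcases (h3 a b hab.ne).1 hab with h | h
    · exact key a b h.1 h.2.1 h.2.2
    · exact (key b a h.1 h.2.1 h.2.2).symm)
  simpa using C.colorable

theorem main :
    IsGreatest {k : ℕ∞ | ∃ (n : ℕ) (G : SimpleGraph (Fin n)),
      Rep G ∧ G.chromaticNumber = k} 4 := by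
  constructor
  · refine ⟨16, G0, unit0, le_antisymm ?_ ?_⟩
    · exact_mod_cast (col4 G0 unit0).chromaticNumber_le
    · by_contra hn
      push Not at hn
      apply not_col3
      rw [← SimpleGraph.chromaticNumber_le_iff_colorable]
      have : (4 : ℕ∞) = ((3 : ℕ) : ℕ∞) + 1 := by norm_num
      rw [this] at hn
      exact Order.le_of_lt_add_one hn
  · rintro k ⟨n, G, hG, rfl⟩
    exact_mod_cast (col4 G hG).chromaticNumber_le

end Pool.Agent.Lib.MP_2fc053_co
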