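import Pool.Agent.Lib.MP_2fc053_co.Two
import Pool.Agent.Lib.MP_2fc053_co.Unit

namespace Pool.Agent.Lib.MP_2fc053_co.AllM
open Pool.Agent.Lib.MP_2fc053_co.Lengths

theorem sub {V : Type} (G : SimpleGraph V) (l v r : V → ℝ) (Λ : Finset ℝ) (m : ℕ)
    (s : Set V) (hΛ : Λ.card ≤ m) (h1 : ∀ a, l a < v a ∧ v a < r a)
    (hs : ∀ a ∈ s, r a - l a ∈ Λ) (h2 : Function.Injective (fun a => (l a, v a, r a)))
    (h3 : ∀ a b, a ≠ b → (G.Adj a b ↔
      (v a < l b ∧ l b < r a ∧ r a < v b) ∨ (v b < l a ∧ l a < r b ∧ r b < v a))) :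
    IsLenVI m (G.induce s) :=
  ⟨fun a => l a, fun a => v a, fun a => r a, Λ, hΛ,
    fun a => ⟨(h1 a).1, (h1 a).2, hs a a.2⟩,
    fun _ _ h => Subtype.ext (h2 h),
    fun a b hab => h3 a b fun h => hab (Subtype.ext h)⟩

theorem glue {V : Type} (G : SimpleGraph V) (s : Set V) {j k : ℕ}
    (h1 : (G.induce s).Colorable j) (h2 : (G.induce sᶜ).Colorable k) : G.Colorable (j + k) := by
  classical
  obtain ⟨C⟩ := h1
  obtain ⟨D⟩ := h2
  have := (SimpleGraph.Coloring.mk (G := G) (α := Fin j ⊕ Fin k)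
    (fun a => if h : a ∈ s then Sum.inl (C ⟨a, h⟩) else Sum.inr (D ⟨a, h⟩)) ?_).colorable
  · simpa using this
  · intro a b hab
    by_cases ha : a ∈ s <;> by_cases hb : b ∈ s <;> simp only [ha, hb, dif_pos, dif_neg,
      not_false_iff, ne_eq, Sum.inl.injEq, Sum.inr.injEq, reduceCtorEq]
    · exact C.valid (by exact hab)
    · exact D.valid (by exact hab)

theorem upper : ∀ (m : ℕ) {V : Type} (G : SimpleGraph V), IsLenVI m G →
    G.Colorable (3 * m + m % 2)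
  | 0, V, G, h => by
    obtain ⟨l, v, r, Λ, hΛ, h1, -, -⟩ := h
    have : Λ = ∅ := Finset.card_eq_zero.1 (Nat.le_zero.1 hΛ)
    have : IsEmpty V := ⟨fun a => by simpa [this] using (h1 a).2.2⟩
    exact ⟨SimpleGraph.Coloring.mk (fun a => isEmptyElim a) (fun {a} => isEmptyElim a)⟩
  | 1, V, G, h => by
    obtain ⟨l, v, r, Λ, hΛ, h1, h2, h3⟩ := h
    obtain ⟨c, hc⟩ := Finset.card_le_one_iff_subset_singleton.1 hΛ
    exact col4 G ⟨l, v, r, c, fun a => ⟨(h1 a).1, (h1 a).2.1,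
      Finset.mem_singleton.1 (hc (h1 a).2.2)⟩, h2, h3⟩
  | m + 2, V, G, h => by
    classical
    obtain ⟨l, v, r, Λ, hΛ, h1, h2, h3⟩ := h
    obtain ⟨Λ₀, hsub, hcard⟩ := Finset.exists_subset_card_eq (s := Λ) (n := min 2 Λ.card)
      (min_le_right _ _)
    have hA := sub G l v r Λ₀ 2 {a | r a - l a ∈ Λ₀} (by omega)
      (fun a => ⟨(h1 a).1, (h1 a).2.1⟩) (fun a ha => ha) h2 h3
    have hB := sub G l v r (Λ \ Λ₀) m {a | r a - l a ∈ Λ₀}ᶜ
      (by rw [Finset.card_sdiff_of_subset hsub]; omega)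
      (fun a => ⟨(h1 a).1, (h1 a).2.1⟩)
      (fun a ha => Finset.mem_sdiff.2 ⟨(h1 a).2.2, ha⟩) h2 h3
    have := glue G _ (SimpleGraph.chromaticNumber_le_iff_colorable.1 (Two.upper2 _ hA))
      (upper m _ hB)
    exact this.mono (by omega)

end Pool.Agent.Lib.MP_2fc053_co.AllM
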