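import Mathlib

namespace Pool.Agent.Lib.MP_2fc053_co.Lengths
open Finset

/-- `G` is a veto interval graph whose intervals have at most `m` distinct lengths: vertex `a`
gets the interval `[l a, r a]` with veto mark `v a`, its length lies in a set of at most `m`
numbers, and distinct vertices get distinct veto intervals. -/
def IsLenVI (m : ℕ) {V : Type} (G : SimpleGraph V) : Prop :=
  ∃ (l v r : V → ℝ) (Λ : Finset ℝ), Λ.card ≤ m ∧
    (∀ a, l a < v a ∧ v a < r a ∧ r a - l a ∈ Λ) ∧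
    Function.Injective (fun a => (l a, v a, r a)) ∧
    ∀ a b, a ≠ b → (G.Adj a b ↔
      (v a < l b ∧ l b < r a ∧ r a < v b) ∨ (v b < l a ∧ l a < r b ∧ r b < v a))

abbrev T := ℝ × ℝ × ℝ

def Rel (a b : T) : Prop := a.2.1 < b.1 ∧ b.1 < a.2.2 ∧ a.2.2 < b.2.1

/-- colour `γ` occurs on a left part over `p` and on a right part over `q` -/
def Both {K : ℕ} (F : Finset T) (c : T → Fin K) (q p : ℝ) (γ : Fin K) : Prop :=
  (∃ a ∈ F, a.1 < p ∧ p < a.2.1 ∧ c a = γ) ∧ (∃ a ∈ F, a.2.1 < q ∧ q < a.2.2 ∧ c a = γ)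

lemma three {M : ℕ} {β : Type} [Fintype β] (f : Fin M → β) (h : Fintype.card β * 2 < M) :
    ∃ k1 k2 k3, k1 < k2 ∧ k2 < k3 ∧ f k1 = f k2 ∧ f k3 = f k2 := by
  classical
  obtain ⟨y, hy⟩ := Fintype.exists_lt_card_fiber_of_mul_lt_card f (n := 2) (by simpa using h)
  set s := univ.filter fun x => f x = y with hs
  have hne : s.Nonempty := card_pos.1 (by omega)
  have h1 := card_erase_of_mem (s.min'_mem hne)
  have h2 := pred_card_le_card_erase (s := s.erase (s.min' hne)) (a := s.max' hne)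
  obtain ⟨k, hk⟩ : ((s.erase (s.min' hne)).erase (s.max' hne)).Nonempty := card_pos.1 (by omega)
  rw [mem_erase, mem_erase] at hk
  have e : ∀ x ∈ s, f x = y := fun x hx => (mem_filter.1 hx).2
  exact ⟨s.min' hne, k, s.max' hne, lt_of_le_of_ne (s.min'_le k hk.2.2) hk.2.1.symm,
    lt_of_le_of_ne (s.le_max' k hk.2.2) hk.1, (e _ (s.min'_mem hne)).trans (e k hk.2.2).symm,
    (e _ (s.max'_mem hne)).trans (e k hk.2.2).symm⟩

lemma probes (K j : ℕ) : ∃ (Λ : Finset ℝ) (D : ℝ), Λ.card ≤ j ∧ 0 < D ∧ ∀ x : ℝ,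
    ∃ (F : Finset T) (P : Finset (ℝ × ℝ)),
      (∀ a ∈ F, x < a.1 ∧ a.1 < a.2.1 ∧ a.2.1 < a.2.2 ∧ a.2.2 < x + D ∧ a.2.2 - a.1 ∈ Λ) ∧
      (∀ w ∈ P, x < w.1 ∧ w.1 < w.2 ∧ w.2 < x + D) ∧
      ∀ c : T → Fin K, (∀ a ∈ F, ∀ b ∈ F, Rel a b → c a ≠ c b) →
        ∃ w ∈ P, ∃ S : Finset (Fin K), S.card = 2 * j ∧ (∀ γ ∈ S, Both F c w.1 w.2 γ) ∧
          (j = 0 ∨ 2 * j + 2 ≤ K) := by
  classical
  induction j with
  | zero =>
    refine ⟨∅, 3, by simp, by norm_num, fun x => ⟨∅, {(x + 1, x + 2)}, by simp, ?_, fun c _ =>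
      ⟨(x + 1, x + 2), by simp, ∅, by simp⟩⟩⟩
    intro w hw
    rw [mem_singleton.1 hw]; refine ⟨?_, ?_, ?_⟩ <;> simp only <;> linarith
  | succ j ih =>
    obtain ⟨Λ, D, hΛ, hD, ih⟩ := ih
    choose F P hF hP hc using ih
    set M := K * K * 2 + 1 with hM
    set L : ℝ := M * D with hL
    have hM1 : (1 : ℝ) ≤ M := by exact_mod_cast (by omega : 1 ≤ M)
    have hDL : D ≤ L := by nlinarith
    refine ⟨insert L Λ, 3 * L, (card_insert_le _ _).trans (by omega), by linarith, fun x => ?_⟩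
    let X : Fin M → ℝ := fun k => x + L + (k : ℕ) * D
    have X1 : ∀ k, x + L ≤ X k := fun k => by
      have : (0 : ℝ) ≤ (k : ℕ) * D := by positivity
      simp only [X]; linarith
    have X2 : ∀ k, X k + D ≤ x + 2 * L := fun k => by
      have : ((k : ℕ) : ℝ) + 1 ≤ M := by exact_mod_cast k.2
      simp only [X]; nlinarith
    have X3 : ∀ k k', k < k' → X k + D ≤ X k' := fun k k' h => by
      have : ((k : ℕ) : ℝ) + 1 ≤ (k' : ℕ) := by exact_mod_cast h
      simp only [X]; nlinarith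
    let A : ℝ → ℝ × ℝ → T := fun y w => (w.2 - L, y + D - L, w.2)
    let B : ℝ → ℝ × ℝ → T := fun y w => (w.2 - L, y, w.2)
    let A' : ℝ → ℝ × ℝ → T := fun y w => (w.1, y + D, w.1 + L)
    let B' : ℝ → ℝ × ℝ → T := fun y w => (w.1, y + L, w.1 + L)
    let F' : Finset T := univ.biUnion fun k : Fin M => F (X k) ∪
      (P (X k)).biUnion fun w => {A (X k) w, B (X k) w, A' (X k) w, B' (X k) w}
    have s0 : ∀ k, ∀ a ∈ F (X k), a ∈ F' := fun k a ha =>
      mem_biUnion.2 ⟨k, mem_univ _, mem_union_left _ ha⟩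
    have s1 : ∀ k, ∀ w ∈ P (X k), A (X k) w ∈ F' ∧ B (X k) w ∈ F' ∧ A' (X k) w ∈ F' ∧
        B' (X k) w ∈ F' := fun k w hw => by
      refine ⟨?_, ?_, ?_, ?_⟩ <;>
        exact mem_biUnion.2 ⟨k, mem_univ _, mem_union_right _ (mem_biUnion.2 ⟨w, hw, by simp⟩)⟩
    refine ⟨F', univ.biUnion fun k : Fin M => P (X k), ?_, ?_, ?_⟩
    · intro a ha
      obtain ⟨k, -, ha⟩ := mem_biUnion.1 ha
      have := X1 k; have := X2 k
      rcases mem_union.1 ha with ha | ha
      · obtain ⟨a1, a2, a3, a4, a5⟩ := hF _ a ha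
        exact ⟨by linarith, a2, a3, by linarith, mem_insert_of_mem a5⟩
      · obtain ⟨w, hw, ha⟩ := mem_biUnion.1 ha
        obtain ⟨w1, w2, w3⟩ := hP _ w hw
        simp only [mem_insert, mem_singleton] at ha
        rcases ha with rfl | rfl | rfl | rfl <;>
          refine ⟨?_, ?_, ?_, ?_, by simp [A, B, A', B']⟩ <;> simp only [A, B, A', B'] <;> linarith
    · intro w hw
      obtain ⟨k, -, hw⟩ := mem_biUnion.1 hw
      obtain ⟨w1, w2, w3⟩ := hP _ w hw
      have := X1 k; have := X2 k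
      exact ⟨by linarith, w2, by linarith⟩
    · intro c hcol
      choose w hw S hS hB _ using fun k : Fin M =>
        hc (X k) c fun a ha b hb => hcol a (s0 k a ha) b (s0 k b hb)
      obtain ⟨k1, k, k3, h1, h3, e1, e3⟩ := three
        (fun k : Fin M => (c (B (X k) (w k)), c (A' (X k) (w k)))) (by simp [hM])
      have eA : c (A' (X k1) (w k1)) = c (A' (X k) (w k)) := congrArg Prod.snd e1
      have eB : c (B (X k3) (w k3)) = c (B (X k) (w k)) := congrArg Prod.fst e3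
      obtain ⟨mA, mB, mA', mB'⟩ := s1 k _ (hw k)
      have m1 := (s1 k1 _ (hw k1)).2.2.1
      have m3 := (s1 k3 _ (hw k3)).2.1
      obtain ⟨p1, p2, p3⟩ := hP _ _ (hw k)
      obtain ⟨u1, u2, u3⟩ := hP _ _ (hw k1)
      obtain ⟨t1, t2, t3⟩ := hP _ _ (hw k3)
      have := X1 k; have := X2 k; have := X1 k1; have := X2 k3
      have := X3 _ _ h1; have := X3 _ _ h3
      have nin : ∀ z ∈ F', z.2.1 ≤ X k → z.2.2 = (w k).2 → c z ∉ S k := fun z hz z1 z2 h => by
        obtain ⟨a, ha, a1, a2, e⟩ := (hB k _ h).1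
        have := (hF _ a ha).1
        exact hcol z hz a (s0 k a ha) ⟨by linarith, by linarith, by linarith⟩ e.symm
      have nout : ∀ z ∈ F', X k + D ≤ z.2.1 → z.1 = (w k).1 → c z ∉ S k := fun z hz z1 z2 h => by
        obtain ⟨a, ha, a1, a2, e⟩ := (hB k _ h).2
        have := (hF _ a ha).2.2.2.1
        exact hcol a (s0 k a ha) z hz ⟨by linarith, by linarith, by linarith⟩ e
      have nA := nin _ mA (by simp only [A]; linarith) rfl
      have nB := nin _ mB le_rfl rfl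
      have nA' := nout _ mA' le_rfl rfl
      have nB' := nout _ mB' (by simp only [B']; linarith) rfl
      have d1 := hcol _ mB _ mA' (by refine ⟨?_, ?_, ?_⟩ <;> simp only [B, A'] <;> linarith)
      have d2 := hcol _ mB _ mB' (by refine ⟨?_, ?_, ?_⟩ <;> simp only [B, B'] <;> linarith)
      have d3 := hcol _ mA _ mA' (by refine ⟨?_, ?_, ?_⟩ <;> simp only [A, A'] <;> linarith)
      have d4 := hcol _ mA _ mB' (by refine ⟨?_, ?_, ?_⟩ <;> simp only [A, B'] <;> linarith)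
      have d5 := hcol _ mA _ m3 (by refine ⟨?_, ?_, ?_⟩ <;> simp only [A, B] <;> linarith)
      have d6 := hcol _ m1 _ mB' (by refine ⟨?_, ?_, ?_⟩ <;> simp only [A', B'] <;> linarith)
      rw [eB] at d5
      rw [eA] at d6
      have c2 : (insert (c (B (X k) (w k))) (insert (c (A' (X k) (w k))) (S k))).card
          = 2 * (j + 1) := by
        rw [card_insert_of_notMem (by simp [d1, nB]), card_insert_of_notMem nA', hS]; ring
      refine ⟨w k, mem_biUnion.2 ⟨k, mem_univ _, hw k⟩, _, c2, ?_, Or.inr ?_⟩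
      · intro γ hγ
        simp only [mem_insert] at hγ
        rcases hγ with rfl | rfl | hγ
        · exact ⟨⟨_, m3, by simp only [B]; linarith, by simp only [B]; linarith, eB⟩,
            ⟨_, mB, p1, p2, rfl⟩⟩
        · exact ⟨⟨_, mA', p2, p3, rfl⟩,
            ⟨_, m1, by simp only [A']; linarith, by simp only [A']; linarith, eA⟩⟩
        · obtain ⟨⟨a, ha, h⟩, ⟨b, hb, h'⟩⟩ := hB k γ hγ
          exact ⟨⟨a, s0 k a ha, h⟩, ⟨b, s0 k b hb, h'⟩⟩
      · have := card_le_univ (insert (c (A (X k) (w k))) (insert (c (B' (X k) (w k)))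
          (insert (c (B (X k) (w k))) (insert (c (A' (X k) (w k))) (S k)))))
        rw [card_insert_of_notMem (by simp [d3, d4, d5, nA]),
          card_insert_of_notMem (by simp [d2.symm, d6.symm, nB']), c2, Fintype.card_fin] at this
        omega

def Col (F : Finset T) (k : ℕ) : Prop :=
  ∃ c : T → ℕ, (∀ a ∈ F, c a < k) ∧ ∀ a ∈ F, ∀ b ∈ F, Rel a b → c a ≠ c b

lemma not_rel {a : T} (ha : a.1 < a.2.1) : ¬ Rel a a := fun h => lt_asymm ha h.1

lemma exact_col (k : ℕ) (F : Finset T) (hF : ∀ a ∈ F, a.1 < a.2.1)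
    (h : ¬ Col F k) : ∃ F' ⊆ F, ¬ Col F' k ∧ Col F' (k + 1) := by
  classical
  induction F using Finset.induction_on with
  | empty => exact absurd ⟨fun _ => 0, by simp, by simp⟩ h
  | insert a F ha ih =>
    by_cases hc : Col F k
    · obtain ⟨c, c1, c2⟩ := hc
      refine ⟨_, subset_rfl, h, fun x => if x = a then k else c x, ?_, ?_⟩
      · intro x hx
        by_cases e : x = a
        · simp [e]
        · have := c1 x ((mem_insert.1 hx).resolve_left e); simp [e]; omega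
      · intro x hx y hy hr
        by_cases e : x = a <;> by_cases e' : y = a
        · subst e e'; exact absurd hr (not_rel (hF _ hx))
        · have := c1 y ((mem_insert.1 hy).resolve_left e'); simp [e, e']; omega
        · have := c1 x ((mem_insert.1 hx).resolve_left e); simp [e, e']; omega
        · simpa [e, e'] using c2 x ((mem_insert.1 hx).resolve_left e) y
            ((mem_insert.1 hy).resolve_left e') hr
    · obtain ⟨F', h1, h2⟩ := ih (fun x hx => hF x (mem_insert_of_mem hx)) hc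
      exact ⟨F', h1.trans (subset_insert _ _), h2⟩

theorem lower {m : ℕ} (hm : 1 ≤ m) :
    ∃ (n : ℕ) (G : SimpleGraph (Fin n)), IsLenVI m G ∧ G.chromaticNumber = (2 * m + 2 : ℕ) := by
  classical
  obtain ⟨Λ, D, hΛ, -, h⟩ := probes (2 * m + 1) m
  obtain ⟨F0, P, hF0, -, hc⟩ := h 0
  obtain ⟨F, hsub, hn, c, c1, c2⟩ := exact_col (2 * m + 1) F0 (fun a ha => (hF0 a ha).2.1) (by
    rintro ⟨c, c1, c2⟩
    obtain ⟨-, -, -, -, -, h⟩ := hc (fun a => if h : a ∈ F0 then ⟨c a, c1 a h⟩ else ⟨0, by omega⟩)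
      (fun a ha b hb hr => by
        rw [dif_pos ha, dif_pos hb]; exact fun e => c2 a ha b hb hr (congrArg Fin.val e))
    omega)
  let e : Fin F.card ≃ F := F.equivFin.symm
  let G : SimpleGraph (Fin F.card) := SimpleGraph.fromRel fun i j => Rel (e i) (e j)
  have hG : ∀ i j, G.Adj i j ↔ i ≠ j ∧ (Rel (e i) (e j) ∨ Rel (e j) (e i)) := fun i j =>
    SimpleGraph.fromRel_adj _ _ _
  refine ⟨F.card, G, ⟨fun i => (e i).1.1, fun i => (e i).1.2.1, fun i => (e i).1.2.2, Λ, hΛ,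
    ?_, ?_, ?_⟩, ?_⟩
  · intro i
    obtain ⟨-, a2, a3, -, a5⟩ := hF0 _ (hsub (e i).2)
    exact ⟨a2, a3, a5⟩
  · intro i j h
    exact e.injective (Subtype.ext h)
  · intro i j hij
    rw [hG]; simp only [hij, ne_eq, not_false_eq_true, true_and]; rfl
  · rw [show 2 * m + 2 = (2 * m + 1) + 1 from rfl, Nat.cast_add_one (2 * m + 1),
      SimpleGraph.chromaticNumber_eq_iff_colorable_not_colorable]
    constructor
    · refine ⟨SimpleGraph.Coloring.mk (fun i => ⟨c (e i), c1 _ (e i).2⟩) fun {i j} h => ?_⟩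
      rcases ((hG i j).1 h).2 with h | h
      · exact fun e' => c2 _ (e i).2 _ (e j).2 h (congrArg Fin.val e')
      · exact fun e' => c2 _ (e j).2 _ (e i).2 h (congrArg Fin.val e').symm
    · rintro ⟨C⟩
      refine hn ⟨fun x => if h : x ∈ F then (C (e.symm ⟨x, h⟩) : ℕ) else 0, ?_, ?_⟩
      · intro a ha; simp only [dif_pos ha]; exact Fin.is_lt _
      · intro a ha b hb hr
        simp only [dif_pos ha, dif_pos hb]
        refine fun e' => C.valid ((hG _ _).2 ⟨fun e2 => ?_, Or.inl (by simpa using hr)⟩) (Fin.ext e')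
        have : a = b := by simpa using e2
        subst this; exact not_rel (hF0 a (hsub ha)).2.1 hr

lemma up_aux {la va ra lb vb rb d : ℝ} (hd : 0 < d) (ha : ra - la = d) (h0 : la < va)
    (h1 : va < lb) (h2 : lb < ra) (h3 : ra < vb) (hp : ⌈la / d⌉ % 2 = ⌈lb / d⌉ % 2)
    (hs : (⌈la / d⌉ : ℝ) * d ≤ va ↔ (⌈lb / d⌉ : ℝ) * d ≤ vb) (_ : rb - lb = d) : False := by
  have e1 : ⌈la / d⌉ ≤ ⌈lb / d⌉ := Int.ceil_mono (div_le_div_of_nonneg_right (by linarith) hd.le)
  have e2 : ⌈lb / d⌉ ≤ ⌈la / d⌉ + 1 := by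
    rw [← Int.ceil_add_one]
    refine Int.ceil_mono ?_
    rw [div_add_one hd.ne']
    exact div_le_div_of_nonneg_right (by linarith) hd.le
  have e : ⌈la / d⌉ = ⌈lb / d⌉ := by omega
  have f1 : lb ≤ (⌈lb / d⌉ : ℝ) * d := (div_le_iff₀ hd).1 (Int.le_ceil _)
  have f2 : (⌈la / d⌉ : ℝ) * d < ra := by
    have := Int.ceil_lt_add_one (la / d)
    rw [div_add_one hd.ne', lt_div_iff₀ hd] at this
    linarith
  rw [e] at hs f2
  have := hs.2 (by linarith)
  linarith

theorem upper {m : ℕ} {V : Type} (G : SimpleGraph V) (h : IsLenVI m G) :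
    G.chromaticNumber ≤ (4 * m : ℕ) := by
  classical
  obtain ⟨l, v, r, Λ, hΛ, h1, -, h3⟩ := h
  let C : G.Coloring (Λ × Bool × Bool) := SimpleGraph.Coloring.mk
    (fun a => (⟨r a - l a, (h1 a).2.2⟩, decide (⌈l a / (r a - l a)⌉ % 2 = 0),
      decide ((⌈l a / (r a - l a)⌉ : ℝ) * (r a - l a) ≤ v a))) (by
      intro a b hab e
      simp only [Prod.mk.injEq, Subtype.mk.injEq, decide_eq_decide] at e
      obtain ⟨e1, e2, e3⟩ := e
      have hd : 0 < r b - l b := by linarith [(h1 b).1, (h1 b).2.1]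
      rw [e1] at e2 e3
      rcases (h3 a b hab.ne).1 hab with h | h
      · exact up_aux hd e1 (h1 a).1 h.1 h.2.1 h.2.2 (by omega) e3 rfl
      · exact up_aux hd rfl (h1 b).1 h.1 h.2.1 h.2.2 (by omega) e3.symm e1)
  refine (C.colorable.mono ?_).chromaticNumber_le
  simp; omega

end Pool.Agent.Lib.MP_2fc053_co.Lengths
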