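import Mathlib

/-! Two colourings of veto intervals, on cell indices. -/

namespace Pool.Agent.Lib.MP_2fc053_co.Two

/-- colour from the cells of the three points, for spans one to three -/
def cs (i j k : ℤ) : ℤ :=
  if (k = i + 1 ∨ k = i + 3) ∧ j = i then 4 + i % 2
  else if k = i + 1 ∨ (k = i + 2 ∧ j ≤ i + 1) then i % 4 else (i + 1) % 4

lemma cs_range (i j k : ℤ) : 0 ≤ cs i j k ∧ cs i j k < 6 := by
  unfold cs
  split_ifs <;> omega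

lemma cs_ne {i j k i' j' k' : ℤ} (h1 : i ≤ j) (h2 : j ≤ i') (h3 : i' ≤ k) (h4 : k ≤ j')
    (h5 : j' ≤ k') (a1 : i + 1 ≤ k) (a2 : k ≤ i + 3) (b1 : i' + 1 ≤ k') (b2 : k' ≤ i' + 3) :
    cs i j k ≠ cs i' j' k' := by
  unfold cs
  split_ifs <;> omega

def al (q j : ℤ) : ℤ :=
  if q % 2 = 1 then (if j % 2 = 0 then 0 else 2)
  else if j = 1 then 4 else if j = 0 ∨ j % 2 = 1 then 0 else 2

def cA (q j : ℤ) : ℤ := if q % 2 = 0 ∧ j = 1 then 0 else 4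

def cB (q j : ℤ) : ℤ :=
  if q % 2 = 1 then (if j % 2 = 0 then 2 else 0)
  else if j = 0 ∨ j % 2 = 1 then 2 else 0

/-- long intervals -/
def cl (q n j nv : ℤ) : ℤ := if nv = n then n + cB q j else n + cA q j

/-- short intervals -/
def cm (q n j nv jv nr : ℤ) : ℤ :=
  if nv ≠ n then n + 4
  else if nr = n then (if jv = j then n - 1 + al q j else n + al q (j + 1))
  else if j = q then n + 1 else n + 2

/-- order of cells -/
def Le (n j n' j' : ℤ) : Prop := n < n' ∨ (n = n' ∧ j ≤ j')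

/-- the right end of a short interval -/
def Sh (q n j n' j' : ℤ) : Prop := (n' = n ∧ j' = j + 1) ∨ (n' = n + 1 ∧ j' = 0 ∧ q - 1 ≤ j)

section
variable {q n j nv jv nr jr n' j' nv' jv' nr' jr' : ℤ} (hq : 3 ≤ q)
  (h1 : Le n j nv jv) (h2 : Le nv jv n' j') (h3 : Le n' j' nr jr) (h4 : Le nr jr nv' jv')
  (h5 : Le nv' jv' nr' jr') (r1 : 0 ≤ j ∧ j ≤ q) (r2 : 0 ≤ jv ∧ jv ≤ q) (r3 : 0 ≤ jr ∧ jr ≤ q)
  (r4 : 0 ≤ j' ∧ j' ≤ q) (r5 : 0 ≤ jv' ∧ jv' ≤ q) (r6 : 0 ≤ jr' ∧ jr' ≤ q)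
include hq h1 h2 h3 h4 h5 r1 r2 r3 r4 r5 r6

lemma ll (a : nr = n + 1 ∧ jr = j) (b : nr' = n' + 1 ∧ jr' = j') :
    cl q n j nv % 6 ≠ cl q n' j' nv' % 6 := by
  unfold Le at *
  unfold cl cA cB
  split_ifs <;> omega

lemma lm (a : nr = n + 1 ∧ jr = j) (b : Sh q n' j' nr' jr') :
    cl q n j nv % 6 ≠ cm q n' j' nv' jv' nr' % 6 := by
  unfold Le Sh at *
  unfold cl cm cA cB al
  split_ifs <;> omega

lemma ml (a : Sh q n j nr jr) (b : nr' = n' + 1 ∧ jr' = j') :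
    cm q n j nv jv nr % 6 ≠ cl q n' j' nv' % 6 := by
  unfold Le Sh at *
  unfold cl cm cA cB al
  split_ifs <;> omega

lemma mm (a : Sh q n j nr jr) (b : Sh q n' j' nr' jr') :
    cm q n j nv jv nr % 6 ≠ cm q n' j' nv' jv' nr' % 6 := by
  unfold Le Sh at *
  unfold cm al
  split_ifs <;> omega

end

end Pool.Agent.Lib.MP_2fc053_co.Two
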