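import Pool.Agent.Lib.MP_2fc053_co.Lengths
import Pool.Agent.Lib.MP_2fc053_co.TwoInt

/-! Veto interval graphs with two lengths are 6-colourable. -/

namespace Pool.Agent.Lib.MP_2fc053_co.Two

open Pool.Agent.Lib.MP_2fc053_co.Lengths

lemma chrom {V : Type} (G : SimpleGraph V) (c : V → ℤ) (h : ∀ a b, G.Adj a b → c a % 6 ≠ c b % 6) :
    G.chromaticNumber ≤ (6 : ℕ) := by
  let C : G.Coloring (Fin 6) := SimpleGraph.Coloring.mk
    (fun a => ⟨(c a % 6).toNat, by omega⟩) (by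
      intro a b hab e
      have := h a b hab
      simp only [Fin.mk.injEq] at e
      omega)
  simpa using C.colorable.chromaticNumber_le

lemma two_len {Λ : Finset ℝ} (h : Λ.card ≤ 2) :
    ∃ d D : ℝ, 0 < d ∧ d ≤ D ∧ ∀ x ∈ Λ, 0 < x → x = d ∨ x = D := by
  classical
  rcases (Λ.filter (0 < ·)).eq_empty_or_nonempty with he | hne
  · refine ⟨1, 1, one_pos, le_rfl, fun x hx h0 => ?_⟩
    have : x ∈ Λ.filter (0 < ·) := Finset.mem_filter.2 ⟨hx, h0⟩
    rw [he] at this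
    simp at this
  have h1 := Finset.min'_mem _ hne
  have h2 := Finset.max'_mem _ hne
  refine ⟨_, _, (Finset.mem_filter.1 h1).2, Finset.min'_le _ _ h2, fun x hx h0 => ?_⟩
  have hx' : x ∈ Λ.filter (0 < ·) := Finset.mem_filter.2 ⟨hx, h0⟩
  by_contra hc
  push Not at hc
  have a1 := lt_of_le_of_ne (Finset.min'_le _ _ hx') hc.1.symm
  have a2 := lt_of_le_of_ne (Finset.le_max' _ _ hx') hc.2
  have : 2 < Λ.card := Finset.two_lt_card_iff.2 ⟨_, _, _, (Finset.mem_filter.1 h1).1, hx,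
    (Finset.mem_filter.1 h2).1, a1.ne, (a1.trans a2).ne, a2.ne⟩
  omega

lemma fl_mono {d x y : ℝ} (hd : 0 < d) (h : x ≤ y) : ⌊x / d⌋ ≤ ⌊y / d⌋ :=
  Int.floor_mono (div_le_div_of_nonneg_right h hd.le)

lemma fl_add {d : ℝ} (hd : 0 < d) (x : ℝ) : ⌊(x + d) / d⌋ = ⌊x / d⌋ + 1 := by
  rw [← div_add_one hd.ne', Int.floor_add_one]

noncomputable def NN (D x : ℝ) : ℤ := ⌊x / D⌋

noncomputable def JJ (d D x : ℝ) : ℤ := ⌊(x - NN D x * D) / d⌋

section
variable {d D : ℝ} {q : ℤ} (hd : 0 < d) (hD : d < D) (q1 : q * d < D) (q2 : D ≤ (q + 1) * d)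

include hd hD in
lemma nn_spec (x : ℝ) : NN D x * D ≤ x ∧ x < (NN D x + 1) * D :=
  ⟨(le_div_iff₀ (hd.trans hD)).1 (Int.floor_le _),
    (div_lt_iff₀ (hd.trans hD)).1 (Int.lt_floor_add_one _)⟩

include hd hD q2 in
lemma jj_range (x : ℝ) : 0 ≤ JJ d D x ∧ JJ d D x ≤ q := by
  obtain ⟨h1, h2⟩ := nn_spec hd hD x
  refine ⟨Int.floor_nonneg.2 (div_nonneg (by linarith) hd.le), Int.lt_add_one_iff.1 ?_⟩
  refine Int.floor_lt.2 ((div_lt_iff₀ hd).2 ?_)
  push_cast
  linarith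

include hd hD in
lemma le_of {x y : ℝ} (h : x ≤ y) : Le (NN D x) (JJ d D x) (NN D y) (JJ d D y) := by
  rcases (fl_mono (hd.trans hD) h).lt_or_eq with h1 | h1
  · exact Or.inl h1
  · refine Or.inr ⟨h1, ?_⟩
    have h2 : NN D x = NN D y := h1
    unfold JJ
    rw [h2]
    exact fl_mono hd (by linarith)

include hd hD in
lemma long {x y : ℝ} (h : y - x = D) : NN D y = NN D x + 1 ∧ JJ d D y = JJ d D x := by
  obtain rfl : y = x + D := by linarith
  have h1 : NN D (x + D) = NN D x + 1 := fl_add (hd.trans hD) x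
  refine ⟨h1, ?_⟩
  unfold JJ
  rw [h1]
  congr 2
  push_cast
  ring

include hd hD q1 in
lemma short {x y : ℝ} (h : y - x = d) : Sh q (NN D x) (JJ d D x) (NN D y) (JJ d D y) := by
  obtain rfl : y = x + d := by linarith
  have h1 : NN D x ≤ NN D (x + d) := fl_mono (hd.trans hD) (by linarith)
  have h2 : NN D (x + d) ≤ NN D (x + D) := fl_mono (hd.trans hD) (by linarith)
  have h3 : NN D (x + D) = NN D x + 1 := fl_add (hd.trans hD) x
  rcases (show NN D (x + d) = NN D x ∨ NN D (x + d) = NN D x + 1 by omega) with e | e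
  · refine Or.inl ⟨e, ?_⟩
    unfold JJ
    rw [e, ← fl_add hd]
    congr 2
    ring
  · obtain ⟨a1, a2⟩ := nn_spec hd hD x
    obtain ⟨b1, -⟩ := nn_spec hd hD (x + d)
    rw [e] at b1
    push_cast at b1
    refine Or.inr ⟨e, ?_, ?_⟩
    · unfold JJ
      rw [e, Int.floor_eq_zero_iff]
      push_cast
      exact ⟨div_nonneg (by linarith) hd.le, (div_lt_one hd).2 (by linarith)⟩
    · refine Int.le_floor.2 ((le_div_iff₀ hd).2 ?_)
      push_cast
      linarith

end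

theorem upper2 {V : Type} (G : SimpleGraph V) (h : IsLenVI 2 G) :
    G.chromaticNumber ≤ (6 : ℕ) := by
  classical
  obtain ⟨l, v, r, Λ, hΛ, h1, -, h3⟩ := h
  obtain ⟨d, D, hd, hdD, hlen⟩ := two_len hΛ
  have len : ∀ a, r a - l a = d ∨ r a - l a = D := fun a =>
    hlen _ (h1 a).2.2 (by linarith [(h1 a).1, (h1 a).2.1])
  have sym : ∀ c : V → ℤ, (∀ a b, v a < l b → l b < r a → r a < v b → c a % 6 ≠ c b % 6) →
      G.chromaticNumber ≤ (6 : ℕ) := fun c hc => chrom G c fun a b hab => by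
    rcases (h3 a b hab.ne).1 hab with h | h
    · exact hc a b h.1 h.2.1 h.2.2
    · exact (hc b a h.1 h.2.1 h.2.2).symm
  by_cases h3d : D ≤ 3 * d
  · have span : ∀ a, ⌊l a / d⌋ + 1 ≤ ⌊r a / d⌋ ∧ ⌊r a / d⌋ ≤ ⌊l a / d⌋ + 3 := fun a => by
      have a1 := fl_mono hd (show l a + d ≤ r a by rcases len a with h | h <;> linarith)
      have a2 := fl_mono hd (show r a ≤ l a + d + d + d by rcases len a with h | h <;> linarith)
      rw [fl_add hd] at a1
      rw [fl_add hd, fl_add hd, fl_add hd] at a2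
      omega
    refine sym (fun a => cs ⌊l a / d⌋ ⌊v a / d⌋ ⌊r a / d⌋) fun a b e1 e2 e3 => ?_
    have a1 := cs_ne (fl_mono hd (h1 a).1.le) (fl_mono hd e1.le) (fl_mono hd e2.le)
      (fl_mono hd e3.le) (fl_mono hd (h1 b).2.1.le) (span a).1 (span a).2 (span b).1 (span b).2
    have a2 := cs_range ⌊l a / d⌋ ⌊v a / d⌋ ⌊r a / d⌋
    have a3 := cs_range ⌊l b / d⌋ ⌊v b / d⌋ ⌊r b / d⌋
    omega
  push Not at h3d
  have hD : d < D := by linarith
  obtain ⟨q, hq, q1, q2⟩ : ∃ q : ℤ, 3 ≤ q ∧ q * d < D ∧ D ≤ (q + 1) * d := by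
    refine ⟨⌈D / d⌉ - 1, ?_, ?_, ?_⟩
    · have : (3 : ℤ) < ⌈D / d⌉ := Int.lt_ceil.2 ((lt_div_iff₀ hd).2 (by push_cast; linarith))
      omega
    · have := Int.ceil_lt_add_one (D / d)
      refine (lt_div_iff₀ hd).1 ?_
      push_cast
      linarith
    · have := Int.le_ceil (D / d)
      refine (div_le_iff₀ hd).1 ?_
      push_cast
      linarith
  refine sym (fun a => if r a - l a = d then
    cm q (NN D (l a)) (JJ d D (l a)) (NN D (v a)) (JJ d D (v a)) (NN D (r a))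
    else cl q (NN D (l a)) (JJ d D (l a)) (NN D (v a))) fun a b e1 e2 e3 => ?_
  have L1 := le_of hd hD (h1 a).1.le
  have L2 := le_of hd hD e1.le
  have L3 := le_of hd hD e2.le
  have L4 := le_of hd hD e3.le
  have L5 := le_of hd hD (h1 b).2.1.le
  have R := jj_range hd hD q2
  split_ifs with ha hb hb
  · exact mm hq L1 L2 L3 L4 L5 (R _) (R _) (R _) (R _) (R _) (R _) (short hd hD q1 ha)
      (short hd hD q1 hb)
  · exact ml hq L1 L2 L3 L4 L5 (R _) (R _) (R _) (R _) (R _) (R _) (short hd hD q1 ha)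
      (long hd hD ((len b).resolve_left hb))
  · exact lm hq L1 L2 L3 L4 L5 (R _) (R _) (R _) (R _) (R _) (R _)
      (long hd hD ((len a).resolve_left ha)) (short hd hD q1 hb)
  · exact ll hq L1 L2 L3 L4 L5 (R _) (R _) (R _) (R _) (R _) (R _)
      (long hd hD ((len a).resolve_left ha)) (long hd hD ((len b).resolve_left hb))

end Pool.Agent.Lib.MP_2fc053_co.Two
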